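import Pool.Agent.Y687.N.Defs
import Pool.Agent.Y574.Z7.C2

/-!
# NEG-C2 (project NEG of helper687, job of helper275): the divisor sums of level two and fourteen
-/

set_option autoImplicit false

namespace Pool.Agent.Y275.N

open Finset Pool.Agent.Z700 Pool.Agent.Y687.N
open Pool.Agent.Y574.Z7 (div_split sum_local chp chp_mul chp_one chp_self chp_nd chp_sq chp_pm jac_eq
  jac_prod dvd_fac alt_sum one_sum two_pt nd4 fac_D fac_D2 chp_D mem_D)

/-! ### the product of the symbols -/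

/-- the product of the symbols -/
def Pn (n m : ℕ) : ℤ := ∏ q ∈ n.primeFactors, chp q m

theorem Pn_one (n : ℕ) : Pn n 1 = 1 := Finset.prod_eq_one fun q _ => chp_one q

theorem Pn_mul (n a b : ℕ) : Pn n (a * b) = Pn n a * Pn n b := by
  unfold Pn
  rw [← Finset.prod_mul_distrib]
  exact Finset.prod_congr rfl fun q _ => chp_mul q a b

theorem Pn_pow (n a k : ℕ) : Pn n (a ^ k) = Pn n a ^ k := by
  induction k with
  | zero => rw [pow_zero, pow_zero, Pn_one]
  | succ k ih => rw [pow_succ, Pn_mul, ih, pow_succ]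

theorem Pn_prod (n : ℕ) (s : Finset ℕ) (f : ℕ → ℕ) :
    Pn n (∏ l ∈ s, f l) = ∏ l ∈ s, Pn n (f l) := by
  classical
  induction s using Finset.induction_on with
  | empty => rw [Finset.prod_empty, Finset.prod_empty, Pn_one]
  | insert l s hl ih => rw [Finset.prod_insert hl, Finset.prod_insert hl, Pn_mul, ih]

/-- `Pn` is completely multiplicative -/
theorem Pn_fac (n : ℕ) (Q : Finset ℕ) (m : ℕ) (hm : m ≠ 0) (h : m.primeFactors ⊆ Q) :
    Pn n m = ∏ l ∈ Q, Pn n l ^ m.factorization l := by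
  have h1 : ∏ l ∈ m.primeFactors, l ^ m.factorization l = m := by
    have h2 := Nat.prod_factorization_pow_eq_self hm
    unfold Finsupp.prod at h2
    rwa [Nat.support_factorization] at h2
  have h2 : Pn n m = ∏ l ∈ m.primeFactors, Pn n l ^ m.factorization l := by
    conv_lhs => rw [← h1]
    rw [Pn_prod]
    exact Finset.prod_congr rfl fun l _ => Pn_pow n l _
  rw [h2]
  refine Finset.prod_subset h fun l _ hl => ?_
  rw [Finsupp.notMem_support_iff.1 (by rwa [Nat.support_factorization]), pow_zero]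

theorem Pn_pm {n m : ℕ} (hm : m ≠ 0) : Pn n m = 1 ∨ Pn n m = -1 := by
  have h : Pn n m * Pn n m = 1 := by
    unfold Pn
    rw [← Finset.prod_mul_distrib]
    exact Finset.prod_eq_one fun q hq => chp_sq (Nat.prime_of_mem_primeFactors hq) hm
  exact mul_self_eq_one_iff.1 h

/-- the value of `Pn` away from `n` -/
theorem Pn_nd {n m : ℕ} (hn : Squarefree n) (h : ∀ q ∈ n.primeFactors, ¬ q ∣ m) :
    Pn n m = jacobiSym m n := by
  conv_rhs => rw [← Nat.prod_primeFactors_of_squarefree hn]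
  rw [jac_prod _ _ fun q hq => (Nat.prime_of_mem_primeFactors hq).ne_zero]
  unfold Pn
  exact Finset.prod_congr rfl fun q hq => chp_nd (h q hq)

theorem Pn_l {n l : ℕ} (hn : Squarefree n) (h8 : n % 8 = 3) (hl : l.Prime) (h2 : l ≠ 2)
    (h : l ∉ n.primeFactors) : Pn n l = jacobiSym (-(n : ℤ)) l := by
  have hodd := hl.odd_of_ne_two h2
  have e1 : Pn n l = jacobiSym l n := by
    apply Pn_nd hn
    intro q hq hd
    rw [(Nat.prime_dvd_prime_iff_eq (Nat.prime_of_mem_primeFactors hq) hl).1 hd] at hq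
    exact h hq
  rw [e1, jacobiSym.neg _ hodd]
  have h3 : l % 4 = 1 ∨ l % 4 = 3 := by
    rw [Nat.odd_iff] at hodd; omega
  have hno : Odd n := by rw [Nat.odd_iff]; omega
  rcases h3 with h3 | h3
  · rw [ZMod.χ₄_nat_one_mod_four h3, one_mul, jacobiSym.quadratic_reciprocity_one_mod_four' hno h3]
  · rw [ZMod.χ₄_nat_three_mod_four h3,
      jacobiSym.quadratic_reciprocity_three_mod_four (by omega : n % 4 = 3) h3]
    ring

theorem Pn_two {n : ℕ} (hn : Squarefree n) (h8 : n % 8 = 3) : Pn n 2 = -1 := by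
  have hno : Odd n := by rw [Nat.odd_iff]; omega
  have e1 : Pn n 2 = jacobiSym ((2 : ℕ) : ℤ) n := by
    apply Pn_nd hn
    intro q hq hd
    have hq2 := (Nat.prime_dvd_prime_iff_eq (Nat.prime_of_mem_primeFactors hq) Nat.prime_two).1 hd
    have h2 := Nat.dvd_of_mem_primeFactors hq
    rw [hq2] at h2
    omega
  rw [e1, Nat.cast_ofNat, jacobiSym.at_two hno, ZMod.χ₈_nat_eq_if_mod_eight]
  rw [if_neg (by omega), if_neg (by omega)]

/-- reciprocity for the primes of `n` -/
theorem Pn_self {n l : ℕ} (hn : Squarefree n) (h8 : n % 8 = 3) (hl : l ∈ n.primeFactors) :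
    Pn n l = chp l n := by
  have hp := Nat.prime_of_mem_primeFactors hl
  obtain ⟨k, hk⟩ := Nat.dvd_of_mem_primeFactors hl
  have hk0 : k ≠ 0 := by rintro rfl; omega
  have hlk : ¬ l ∣ k := by
    intro h
    have h1 : l * l ∣ n := by rw [hk]; exact Nat.mul_dvd_mul_left l h
    exact hp.one_lt.ne' (Nat.isUnit_iff.1 (hn l h1))
  have hkn : Squarefree k := hn.squarefree_of_dvd ⟨l, by rw [hk]; ring⟩
  have hodd : Odd (l * k) := by rw [← hk, Nat.odd_iff]; omega
  have hlo : Odd l := (Nat.odd_mul.1 hodd).1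
  have hko : Odd k := (Nat.odd_mul.1 hodd).2
  have e0 : n.primeFactors = insert l k.primeFactors := by
    rw [hk, Nat.primeFactors_mul hp.ne_zero hk0, hp.primeFactors]
    rfl
  have hlk' : l ∉ k.primeFactors := fun h => hlk (Nat.dvd_of_mem_primeFactors h)
  have e1 : Pn n l = jacobiSym l k := by
    unfold Pn
    rw [e0, Finset.prod_insert hlk', chp_self hp, one_mul]
    have e2 := Pn_nd (n := k) (m := l) hkn (by
      intro q hq hd
      have h3 := (Nat.prime_dvd_prime_iff_eq (Nat.prime_of_mem_primeFactors hq) hp).1 hd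
      rw [h3] at hq
      exact hlk' hq)
    exact e2
  have e2 : chp l n = jacobiSym k l := by
    rw [hk, chp_mul, chp_self hp, one_mul, chp_nd hlk]
  rw [e1, e2]
  have h4 : (l * k) % 4 = 3 := by rw [← hk]; omega
  have h5 : l % 4 = 1 ∨ l % 4 = 3 := by
    rw [Nat.odd_iff] at hlo; omega
  have h6 : k % 4 = 1 ∨ k % 4 = 3 := by
    rw [Nat.odd_iff] at hko; omega
  rcases h5 with h5 | h5
  · exact jacobiSym.quadratic_reciprocity_one_mod_four h5 hko
  · rcases h6 with h6 | h6
    · exact jacobiSym.quadratic_reciprocity_one_mod_four' hlo h6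
    · exfalso
      rw [Nat.mul_mod, h5, h6] at h4
      omega

/-! ### the local weights -/

/-- the local weight -/
def wn (S T q i j : ℕ) : ℤ :=
  if q ∣ T then (if i = S.factorization q ∧ j = 0 then ZMod.χ₄ q * chp q S
      else if i = 0 ∧ j = T.factorization q then chp q T else 0) else chp q T

theorem psn_eq {p S T a a' : ℕ} (hp : p.Prime) (h2 : p ≠ 2) (hS : S ≠ 0) (hT : T ≠ 0)
    (hd : p ∣ S ↔ p ∣ T) (ha : a ∣ S) (ha' : a' ∣ T) :
    psn p a a' (S / a) (T / a') =
      chp p a * chp p a' * wn S T p (a.factorization p) (a'.factorization p) := by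
  obtain ⟨Y, rfl⟩ := ha
  obtain ⟨X, rfl⟩ := ha'
  have a0 : a ≠ 0 := left_ne_zero_of_mul hS
  have Y0 : Y ≠ 0 := right_ne_zero_of_mul hS
  have b0 : a' ≠ 0 := left_ne_zero_of_mul hT
  have X0 : X ≠ 0 := right_ne_zero_of_mul hT
  rw [Nat.mul_div_cancel_left _ (Nat.pos_of_ne_zero a0), Nat.mul_div_cancel_left _ (Nat.pos_of_ne_zero b0)]
  rw [dvd_fac hp hS, dvd_fac hp hT, Nat.factorization_mul a0 Y0, Nat.factorization_mul b0 X0,
    Finsupp.add_apply, Finsupp.add_apply] at hd
  unfold psn wn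
  rw [jacobiSym.neg _ (hp.odd_of_ne_two h2), jac_eq hp, jac_eq hp]
  simp only [dvd_fac hp a0, dvd_fac hp X0, dvd_fac hp (mul_ne_zero b0 Y0),
    dvd_fac hp (mul_ne_zero a0 X0), dvd_fac hp hT, Nat.factorization_mul a0 Y0, Nat.factorization_mul b0 X0,
    Nat.factorization_mul b0 Y0, Nat.factorization_mul a0 X0, Finsupp.add_apply, chp_mul]
  have s1 := chp_sq hp a0
  have s2 := chp_sq hp b0
  generalize (ZMod.χ₄ p : ℤ) = c at *
  generalize a.factorization p = i at *
  generalize Y.factorization p = y at *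
  generalize a'.factorization p = j at *
  generalize X.factorization p = x at *
  generalize chp p a = α at *
  generalize chp p a' = α' at *
  generalize chp p Y = υ at *
  generalize chp p X = ξ at *
  split_ifs
  all_goals first
    | (exfalso; omega)
    | (linear_combination (-(c * α' * υ)) * s1)
    | (linear_combination (-(α * ξ)) * s2)
    | ring1

/-- all the primes -/
def QQ (n S T : ℕ) : Finset ℕ := insert 2 (insert 7 (n.primeFactors ∪ (S * T).primeFactors))

/-- the local weights -/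
def Wl (d n S T l i j : ℕ) : ℤ :=
  Pn n l ^ (i + j) * (if l ∈ n.primeFactors then wn S T l i j else 1) *
    (if l = 2 then (if 1 ≤ i then 1 else 0) else 1) *
      (if l = 7 then (if d = 7 then (if 1 ≤ j then 1 else 0) else 1) else 1)

theorem mem_QQ2 {n S T : ℕ} : 2 ∈ QQ n S T := Finset.mem_insert_self _ _

theorem mem_QQ7 {n S T : ℕ} : 7 ∈ QQ n S T :=
  Finset.mem_insert_of_mem (Finset.mem_insert_self _ _)

theorem sub_QQ {n S T : ℕ} : n.primeFactors ⊆ QQ n S T := fun _ hq =>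
  Finset.mem_insert_of_mem (Finset.mem_insert_of_mem (Finset.mem_union_left _ hq))

theorem pf_QQ {n S T : ℕ} : (S * T).primeFactors ⊆ QQ n S T := fun _ hq =>
  Finset.mem_insert_of_mem (Finset.mem_insert_of_mem (Finset.mem_union_right _ hq))

theorem QQ_prime {n S T : ℕ} : ∀ l ∈ QQ n S T, l.Prime := by
  intro l hl
  unfold QQ at hl
  rcases Finset.mem_insert.1 hl with rfl | hl
  · exact Nat.prime_two
  rcases Finset.mem_insert.1 hl with rfl | hl
  · norm_num
  rcases Finset.mem_union.1 hl with hl | hl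
  · exact Nat.prime_of_mem_primeFactors hl
  · exact Nat.prime_of_mem_primeFactors hl

theorem dvd_iff' {n S T : ℕ} (hST : S + T = n) {q : ℕ} (hq : q ∈ n.primeFactors) :
    q ∣ S ↔ q ∣ T := by
  have h := Nat.dvd_of_mem_primeFactors hq
  rw [← hST] at h
  exact ⟨fun h1 => (Nat.dvd_add_right h1).1 h, fun h1 => (Nat.dvd_add_left h1).1 h⟩

theorem ne_two {n : ℕ} (h8 : n % 8 = 3) {q : ℕ} (hq : q ∈ n.primeFactors) : q ≠ 2 := by
  rintro rfl
  have := Nat.dvd_of_mem_primeFactors hq
  omega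

theorem term_eq {d n S T : ℕ} (h8 : n % 8 = 3) (hd : d = 1 ∨ d = 7) (hS : S ≠ 0) (hT : T ≠ 0)
    (hST : S + T = n) {a a' : ℕ} (ha : a ∣ S) (ha' : a' ∣ T) :
    (if 2 ∣ a then (if d ∣ a' then ∏ l ∈ n.primeFactors, psn l a a' (S / a) (T / a') else 0)
      else 0) = ∏ l ∈ QQ n S T, Wl d n S T l (a.factorization l) (a'.factorization l) := by
  classical
  have a0 : a ≠ 0 := by rintro rfl; exact hS (zero_dvd_iff.1 ha)
  have b0 : a' ≠ 0 := by rintro rfl; exact hT (zero_dvd_iff.1 ha')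
  have hsa : a.primeFactors ⊆ QQ n S T :=
    (Nat.primeFactors_mono (ha.mul_right T) (mul_ne_zero hS hT)).trans pf_QQ
  have hsb : a'.primeFactors ⊆ QQ n S T :=
    (Nat.primeFactors_mono (ha'.mul_left S) (mul_ne_zero hS hT)).trans pf_QQ
  unfold Wl
  rw [Finset.prod_mul_distrib, Finset.prod_mul_distrib, Finset.prod_mul_distrib]
  have e1 : ∏ l ∈ QQ n S T, Pn n l ^ (a.factorization l + a'.factorization l) = Pn n a * Pn n a' := by
    rw [Pn_fac n (QQ n S T) a a0 hsa, Pn_fac n (QQ n S T) a' b0 hsb, ← Finset.prod_mul_distrib]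
    exact Finset.prod_congr rfl fun l _ => pow_add _ _ _
  have e2 : ∏ l ∈ QQ n S T, (if l ∈ n.primeFactors then
      wn S T l (a.factorization l) (a'.factorization l) else 1) =
      ∏ l ∈ n.primeFactors, wn S T l (a.factorization l) (a'.factorization l) := by
    rw [Finset.prod_ite_mem, Finset.inter_eq_right.2 sub_QQ]
  have e3 : ∏ l ∈ QQ n S T, (if l = 2 then (if 1 ≤ a.factorization l then (1 : ℤ) else 0) else 1) =
      if 2 ∣ a then 1 else 0 := by
    rw [Finset.prod_ite_eq' (QQ n S T) 2 (fun l => if 1 ≤ a.factorization l then (1 : ℤ) else 0),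
      if_pos mem_QQ2]
    simp only [dvd_fac Nat.prime_two a0]
  have e4 : ∏ l ∈ QQ n S T, (if l = 7 then (if d = 7 then
      (if 1 ≤ a'.factorization l then (1 : ℤ) else 0) else 1) else 1) =
      if d ∣ a' then 1 else 0 := by
    rw [Finset.prod_ite_eq' (QQ n S T) 7 (fun l => if d = 7 then
      (if 1 ≤ a'.factorization l then (1 : ℤ) else 0) else 1), if_pos mem_QQ7]
    rcases hd with rfl | rfl
    · rw [if_neg (by norm_num), if_pos (one_dvd _)]
    · rw [if_pos rfl]
      simp only [dvd_fac (by norm_num : Nat.Prime 7) b0]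
  rw [e1, e2, e3, e4]
  have e5 : ∏ l ∈ n.primeFactors, psn l a a' (S / a) (T / a') =
      Pn n a * Pn n a' * ∏ l ∈ n.primeFactors, wn S T l (a.factorization l) (a'.factorization l) := by
    unfold Pn
    rw [← Finset.prod_mul_distrib, ← Finset.prod_mul_distrib]
    exact Finset.prod_congr rfl fun p hp => psn_eq (Nat.prime_of_mem_primeFactors hp)
      (ne_two h8 hp) hS hT (dvd_iff' hST hp) ha ha'
  rw [e5]
  split_ifs <;> simp

/-- the sum of the local weights -/
def Ls (d n S T l : ℕ) : ℤ :=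
  ∑ i ∈ range (S.factorization l + 1), ∑ j ∈ range (T.factorization l + 1), Wl d n S T l i j

theorem WN_eq {d n S T : ℕ} (h8 : n % 8 = 3) (hd : d = 1 ∨ d = 7) (hS : S ≠ 0) (hT : T ≠ 0)
    (hST : S + T = n) : WN d n T = ∏ l ∈ QQ n S T, Ls d n S T l := by
  have hnT : n - T = S := by omega
  unfold Ls
  rw [← sum_local (Wl d n S T) (QQ n S T) QQ_prime S T hS hT
    (fun l hl hd => pf_QQ (Nat.mem_primeFactors.2 ⟨hl, hd.mul_right T, mul_ne_zero hS hT⟩))
    (fun l hl hd => pf_QQ (Nat.mem_primeFactors.2 ⟨hl, hd.mul_left S, mul_ne_zero hS hT⟩))]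
  unfold WN
  rw [hnT, Finset.sum_filter]
  refine Finset.sum_congr rfl fun a ha => ?_
  rw [Finset.sum_filter]
  have ha1 := Nat.dvd_of_mem_divisors ha
  have h1 : ∀ a' ∈ T.divisors, ∏ l ∈ QQ n S T, Wl d n S T l (a.factorization l) (a'.factorization l) =
      (if 2 ∣ a then (if d ∣ a' then ∏ l ∈ n.primeFactors, psn l a a' (S / a) (T / a') else 0)
        else 0) :=
    fun a' ha' => (term_eq h8 hd hS hT hST ha1 (Nat.dvd_of_mem_divisors ha')).symm
  rw [Finset.sum_congr rfl h1]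
  by_cases h2 : 2 ∣ a
  · simp only [if_pos h2]
  · simp only [if_neg h2, Finset.sum_const_zero]

/-! ### the local factors -/

theorem facn_self {n l : ℕ} (hn : Squarefree n) (hl : l ∈ n.primeFactors) :
    n.factorization l = 1 := by
  have hp := Nat.prime_of_mem_primeFactors hl
  have h0 : n ≠ 0 := hn.ne_zero
  apply le_antisymm
  · by_contra h
    push Not at h
    have h1 := (hp.pow_dvd_iff_le_factorization h0).2 h
    rw [sq] at h1
    exact hp.one_lt.ne' (Nat.isUnit_iff.1 (hn l h1))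
  · exact (dvd_fac hp h0).1 (Nat.dvd_of_mem_primeFactors hl)

theorem hh_eq {n S T l : ℕ} (hn : Squarefree n) (h8 : n % 8 = 3) (hS : S ≠ 0) (hT : T ≠ 0)
    (hl : l ∈ n.primeFactors) : hh n (4 * S * T) l =
      ZMod.χ₄ l * (Pn n l) ^ (S.factorization l + T.factorization l) * (chp l S * chp l T) := by
  have hp := Nat.prime_of_mem_primeFactors hl
  have h2 : l ≠ 2 := ne_two h8 hl
  have hodd := hp.odd_of_ne_two h2
  have hsq : chp l n * chp l n = 1 := chp_sq hp hn.ne_zero
  have hm : chp l n = jacobiSym ((n / l : ℕ) : ℤ) l := by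
    unfold chp
    rw [facn_self hn hl, pow_one]
  have hD : jacobiSym ((4 * S * T / l ^ (4 * S * T).factorization l : ℕ) : ℤ) l = chp l S * chp l T :=
    chp_D hp
  unfold hh
  rw [Pn_self hn h8 hl, jacobiSym.neg _ hodd, jacobiSym.neg _ hodd, Nat.cast_mul, jacobiSym.mul_left,
    hD, ← hm, ← fac_D hS hT hp h2]
  split_ifs with h
  · obtain ⟨k, hk⟩ := h
    rw [hk, ← two_mul, pow_mul, sq, hsq, one_pow]
    ring
  · rw [Nat.not_even_iff_odd] at h
    obtain ⟨k, hk⟩ := h
    rw [hk, pow_succ, pow_mul, sq, hsq, one_pow]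
    ring

theorem facp_eq {n S T l : ℕ} (hn : Squarefree n) (h8 : n % 8 = 3) (hS : S ≠ 0) (hT : T ≠ 0)
    (hl : l ∈ n.primeFactors) : fac n (4 * S * T) l =
      1 + ZMod.χ₄ l * (Pn n l) ^ (S.factorization l + T.factorization l) * (chp l S * chp l T) := by
  unfold fac
  rw [if_pos (Nat.dvd_of_mem_primeFactors hl), hh_eq hn h8 hS hT hl]

theorem not_dvd_of {n l : ℕ} (hn : Squarefree n) (hp : l.Prime) (hl : l ∉ n.primeFactors) :
    ¬ l ∣ n := fun h => hl (Nat.mem_primeFactors.2 ⟨hp, h, hn.ne_zero⟩)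

theorem facg_eq {n S T l : ℕ} (hn : Squarefree n) (h8 : n % 8 = 3) (hS : S ≠ 0) (hT : T ≠ 0)
    (hp : l.Prime) (h2 : l ≠ 2) (hl : l ∉ n.primeFactors) : fac n (4 * S * T) l =
      ∑ j ∈ range (S.factorization l + T.factorization l + 1), Pn n l ^ j := by
  unfold fac
  rw [if_neg (not_dvd_of hn hp hl), fac_D hS hT hp h2, Pn_l hn h8 hp h2 hl]

theorem Ls_two {d n S T : ℕ} (hn : Squarefree n) (h8 : n % 8 = 3) (hT : Odd T) :
    Ls d n S T 2 = if Odd (S.factorization 2) then -1 else 0 := by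
  have h2 : (2 : ℕ) ∉ n.primeFactors := fun h => ne_two h8 h rfl
  have hT2 : T.factorization 2 = 0 := Nat.factorization_eq_zero_of_not_dvd (fun h => by
      have := (Nat.odd_iff.1 hT); omega)
  unfold Ls
  rw [hT2, zero_add, ← alt_sum]
  refine Finset.sum_congr rfl fun i _ => ?_
  rw [Finset.sum_range_one]
  unfold Wl
  rw [if_neg h2, if_pos rfl, if_neg (by norm_num : (2 : ℕ) ≠ 7), Pn_two hn h8, add_zero]
  ring

theorem Ls_seven {n S T : ℕ} (h7 : ¬ 7 ∣ n) (hP7 : Pn n 7 = 1)
    (hS7 : ¬ 7 ∣ S) : Ls 7 n S T 7 = (T.factorization 7 : ℤ) := by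
  have h7' : (7 : ℕ) ∉ n.primeFactors := fun h => h7 (Nat.dvd_of_mem_primeFactors h)
  unfold Ls
  rw [Nat.factorization_eq_zero_of_not_dvd hS7, zero_add, Finset.sum_range_one, ← one_sum]
  refine Finset.sum_congr rfl fun j _ => ?_
  unfold Wl
  rw [if_neg h7', if_pos rfl, if_pos rfl, if_neg (by norm_num : (7 : ℕ) ≠ 2), hP7, one_pow]
  ring

/-- the excluded primes -/
def ex (d : ℕ) : Finset ℕ := if d = 7 then {2, 7} else {2}

theorem mem_ex {d l : ℕ} : l ∈ ex d ↔ l = 2 ∨ (l = 7 ∧ d = 7) := by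
  unfold ex
  split_ifs with h
  · simp [h]
  · simp [h]

theorem Wl_ex {d n S T l : ℕ} (hl : l ∉ ex d) (i j : ℕ) :
    Wl d n S T l i j = Pn n l ^ (i + j) * (if l ∈ n.primeFactors then wn S T l i j else 1) := by
  rw [mem_ex] at hl
  push Not at hl
  unfold Wl
  rw [if_neg hl.1, mul_one]
  by_cases h : l = 7
  · rw [if_pos h, if_neg (hl.2 h), mul_one]
  · rw [if_neg h, mul_one]

theorem Ls_gen {d n S T l : ℕ} (hn : Squarefree n) (h8 : n % 8 = 3) (hS : S ≠ 0) (hT : T ≠ 0)
    (hST : S + T = n) (hp : l.Prime) (hex : l ∉ ex d) (hl : l ∉ n.primeFactors) :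
    Ls d n S T l = fac n (4 * S * T) l := by
  have h2 : l ≠ 2 := fun h => hex (mem_ex.2 (Or.inl h))
  rw [facg_eq hn h8 hS hT hp h2 hl]
  unfold Ls
  simp only [Wl_ex hex, if_neg hl, mul_one]
  have h0 : S.factorization l = 0 ∨ T.factorization l = 0 := by
    by_contra h
    push Not at h
    have h1 := (dvd_fac hp hS).2 (by omega)
    have h2 := (dvd_fac hp hT).2 (by omega)
    exact not_dvd_of hn hp hl (hST ▸ dvd_add h1 h2)
  rcases h0 with h0 | h0
  · rw [h0, zero_add, Finset.sum_range_one, zero_add]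
    exact Finset.sum_congr rfl fun j _ => by rw [zero_add]
  · rw [h0, zero_add, add_zero]
    exact Finset.sum_congr rfl fun i _ => by rw [Finset.sum_range_one, add_zero]

theorem chi_sq {l : ℕ} (h : Odd l) : (ZMod.χ₄ l : ℤ) * ZMod.χ₄ l = 1 := by
  have h3 : l % 4 = 1 ∨ l % 4 = 3 := by
    rw [Nat.odd_iff] at h; omega
  rcases h3 with h3 | h3
  · rw [ZMod.χ₄_nat_one_mod_four h3]; norm_num
  · rw [ZMod.χ₄_nat_three_mod_four h3]; norm_num

theorem Ls_p {d n S T : ℕ} (hn : Squarefree n) (h8 : n % 8 = 3) (hS : S ≠ 0) (hT : T ≠ 0)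
    (hST : S + T = n) {p : ℕ} (hp : p ∈ n.primeFactors) (hex : p ∉ ex d) :
    Ls d n S T p = (Pn n p ^ T.factorization p * chp p T) *
      (if p ∣ T then fac n (4 * S * T) p else 1) := by
  have hd := dvd_iff' hST hp
  have hpp := Nat.prime_of_mem_primeFactors hp
  unfold Ls
  simp only [Wl_ex hex, if_pos hp]
  unfold wn
  by_cases h : p ∣ T
  · rw [if_pos h, facp_eq hn h8 hS hT hp]
    simp only [if_pos h]
    have s1 := (dvd_fac hpp hS).1 (hd.2 h)
    have t1 := (dvd_fac hpp hT).1 h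
    rw [two_pt (S.factorization p) (T.factorization p) (S.factorization p) 0 0 (T.factorization p)
      le_rfl (Nat.zero_le _) (Nat.zero_le _) le_rfl (Or.inl (by omega)) (ZMod.χ₄ p * chp p S)
      (chp p T) (fun i j => Pn n p ^ (i + j))]
    simp only [add_zero, zero_add]
    have c1 := chp_sq hpp hT
    have c2 : Pn n p ^ T.factorization p * Pn n p ^ T.factorization p = 1 := by
      rw [← mul_pow]
      rcases Pn_pm (n := n) hpp.ne_zero with h | h <;> rw [h] <;> norm_num
    rw [pow_add]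
    linear_combination (-(ZMod.χ₄ p * Pn n p ^ S.factorization p * chp p S * (chp p T * chp p T))) * c2 -
      (ZMod.χ₄ p * Pn n p ^ S.factorization p * chp p S) * c1
  · rw [if_neg h]
    simp only [if_neg h]
    rw [Nat.factorization_eq_zero_of_not_dvd h, Nat.factorization_eq_zero_of_not_dvd (fun h1 => h (hd.1 h1))]
    simp only [zero_add, Finset.sum_range_one, pow_zero, one_mul, mul_one]

/-! ### the assembly -/

/-- the local factor or one -/
def Ff (n S T l : ℕ) : ℤ :=
  if l ∈ (4 * S * T).primeFactors then fac n (4 * S * T) l else 1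

/-- the local sums away from the excluded primes -/
theorem Ls_Q' {d n S T : ℕ} (hn : Squarefree n) (h8 : n % 8 = 3) (hS : S ≠ 0) (hT : T ≠ 0)
    (hST : S + T = n) {l : ℕ} (hl : l ∈ QQ n S T \ ex d) :
    Ls d n S T l = (if l ∈ n.primeFactors then Pn n l ^ T.factorization l * chp l T else 1) *
      Ff n S T l := by
  obtain ⟨hl1, hex⟩ := Finset.mem_sdiff.1 hl
  have hp := QQ_prime l hl1
  have h2 : l ≠ 2 := fun h => hex (mem_ex.2 (Or.inl h))
  have hD := mem_D hS hT hp h2
  by_cases hlP : l ∈ n.primeFactors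
  · have hd := dvd_iff' hST hlP
    have hD' : l ∈ (4 * S * T).primeFactors ↔ l ∣ T := by rw [hD, hd, or_self]
    rw [if_pos hlP, Ls_p hn h8 hS hT hST hlP hex]
    unfold Ff
    simp only [hD']
  · rw [if_neg hlP, one_mul, Ls_gen hn h8 hS hT hST hp hex hlP]
    unfold Ff
    split_ifs with h
    · rfl
    · rw [facg_eq hn h8 hS hT hp h2 hlP]
      rw [hD] at h
      push Not at h
      rw [Nat.factorization_eq_zero_of_not_dvd h.1, Nat.factorization_eq_zero_of_not_dvd h.2]
      simp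

/-- the product of the local factors -/
theorem prod_Ff {d n S T : ℕ} (hS : S ≠ 0) (hT : T ≠ 0) :
    ∏ l ∈ QQ n S T \ ex d, Ff n S T l =
      ∏ l ∈ (4 * S * T).primeFactors \ ex d, fac n (4 * S * T) l := by
  classical
  unfold Ff
  rw [Finset.prod_ite_mem]
  refine Finset.prod_congr ?_ fun _ _ => rfl
  ext l
  rw [Finset.mem_inter, Finset.mem_sdiff, Finset.mem_sdiff]
  constructor
  · rintro ⟨h1, h2⟩
    exact ⟨h2, h1.2⟩
  · rintro ⟨h1, h2⟩
    refine ⟨⟨?_, h2⟩, h1⟩
    have h3 : l ≠ 2 := fun h => h2 (mem_ex.2 (Or.inl h))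
    have h5 := Nat.prime_of_mem_primeFactors h1
    exact pf_QQ (Nat.mem_primeFactors.2 ⟨h5, (Nat.Prime.dvd_mul h5).2 ((mem_D hS hT h5 h3).1 h1),
      mul_ne_zero hS hT⟩)

theorem alt_zero (k : ℕ) : ∑ j ∈ range (2 * k + 1 + 1), (-1 : ℤ) ^ j = 0 := by
  induction k with
  | zero => simp [Finset.sum_range_succ]
  | succ k ih =>
    rw [show 2 * (k + 1) + 1 + 1 = (2 * k + 1 + 1) + 1 + 1 by ring, Finset.sum_range_succ,
      Finset.sum_range_succ, ih, pow_succ (-1 : ℤ) (2 * k + 1 + 1)]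
    ring

/-- the sign -/
theorem sign_eq {d n S T : ℕ} (hn : Squarefree n) (h8 : n % 8 = 3) (hS : S ≠ 0) (hT : T ≠ 0)
    (hTo : Odd T) (hST : S + T = n) (h7 : d = 7 → Pn n 7 = 1)
    (hF : ∀ l ∈ QQ n S T \ ex d, Ff n S T l ≠ 0) :
    ∏ l ∈ n.primeFactors, (Pn n l ^ T.factorization l * chp l T) = 1 := by
  classical
  have hsub : T.primeFactors ⊆ QQ n S T :=
    (Nat.primeFactors_mono (dvd_mul_left T S) (mul_ne_zero hS hT)).trans pf_QQ
  have e2 : Pn n T = ∏ l ∈ n.primeFactors, Pn n l ^ T.factorization l := by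
    rw [Pn_fac n (QQ n S T) T hT hsub]
    symm
    refine Finset.prod_subset sub_QQ fun l hl hlP => ?_
    have hp := QQ_prime l hl
    by_cases hex : l ∈ ex d
    · rcases mem_ex.1 hex with h | ⟨h, h'⟩
      · have hT2 : T.factorization l = 0 := Nat.factorization_eq_zero_of_not_dvd (fun h1 => by
          rw [h] at h1
          have := (Nat.odd_iff.1 hTo); omega)
        rw [hT2, pow_zero]
      · rw [h, h7 h', one_pow]
    · have h2 : l ≠ 2 := fun h => hex (mem_ex.2 (Or.inl h))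
      have h5 := hF l (Finset.mem_sdiff.2 ⟨hl, hex⟩)
      by_cases hlT : l ∣ T
      · have h4 : l ∈ (4 * S * T).primeFactors := (mem_D hS hT hp h2).2 (Or.inr hlT)
        unfold Ff at h5
        rw [if_pos h4, facg_eq hn h8 hS hT hp h2 hlP] at h5
        have hS0 : S.factorization l = 0 := by
          apply Nat.factorization_eq_zero_of_not_dvd
          intro h
          exact not_dvd_of hn hp hlP (hST ▸ dvd_add h hlT)
        rw [hS0, zero_add] at h5
        rcases Pn_pm (n := n) hp.ne_zero with h6 | h6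
        · rw [h6, one_pow]
        · rw [h6] at h5 ⊢
          rcases Nat.even_or_odd (T.factorization l) with h7 | h7
          · exact h7.neg_one_pow
          · exfalso
            apply h5
            obtain ⟨k, hk⟩ := h7
            rw [hk]
            exact alt_zero k
      · rw [Nat.factorization_eq_zero_of_not_dvd hlT, pow_zero]
  rw [Finset.prod_mul_distrib, ← e2]
  have e3 : ∏ l ∈ n.primeFactors, chp l T = Pn n T := rfl
  rw [e3]
  rcases Pn_pm (n := n) hT with h | h <;> rw [h] <;> norm_num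

/-- the divisor sums -/
theorem main {d n T : ℕ} (hn : Squarefree n) (h8 : n % 8 = 3) (hd : d = 1 ∨ d = 7)
    (h7 : d = 7 → ¬ 7 ∣ n ∧ Pn n 7 = 1 ∧ 7 ∣ T) (hTo : Odd T) (hlt : T < n) :
    WN d n T = - (if Odd ((4 * (n - T) * T).factorization 2) then
      (if d = 7 then ((4 * (n - T) * T).factorization 7 : ℤ) else 1) *
        ∏ l ∈ (4 * (n - T) * T).primeFactors \ ex d, fac n (4 * (n - T) * T) l else 0) := by
  classical
  obtain ⟨S, hSdef⟩ : ∃ S, S = n - T := ⟨_, rfl⟩
  rw [← hSdef]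
  have hST : S + T = n := by omega
  have hS : S ≠ 0 := by omega
  have hT : T ≠ 0 := by rintro rfl; exact absurd hTo (by decide)
  rw [WN_eq h8 hd hS hT hST]
  -- the excluded primes
  have hexs : ex d ⊆ QQ n S T := by
    intro l hl
    rcases mem_ex.1 hl with h | ⟨h, _⟩
    · rw [h]; exact mem_QQ2
    · rw [h]; exact mem_QQ7
  have hE : ∏ l ∈ ex d, Ls d n S T l = (if Odd (S.factorization 2) then -1 else 0) *
      (if d = 7 then ((4 * S * T).factorization 7 : ℤ) else 1) := by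
    rcases hd with rfl | rfl
    · unfold ex
      rw [if_neg (by norm_num : ¬ (1:ℕ) = 7), if_neg (by norm_num : ¬ (1:ℕ) = 7), Finset.prod_singleton,
        Ls_two hn h8 hTo, mul_one]
    · obtain ⟨h7n, h7P, h7T⟩ := h7 rfl
      have hS7 : ¬ 7 ∣ S := by
        intro h
        exact h7n (hST ▸ dvd_add h h7T)
      unfold ex
      rw [if_pos rfl, if_pos rfl, Finset.prod_pair (by norm_num), Ls_two hn h8 hTo,
        Ls_seven h7n h7P hS7, fac_D hS hT (by norm_num) (by norm_num),
        Nat.factorization_eq_zero_of_not_dvd hS7, zero_add]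
  have hPsub : n.primeFactors ⊆ QQ n S T \ ex d := by
    intro l hl
    refine Finset.mem_sdiff.2 ⟨sub_QQ hl, fun h => ?_⟩
    rcases mem_ex.1 h with h | ⟨h, h'⟩
    · exact ne_two h8 hl h
    · rw [h] at hl
      exact (h7 h').1 (Nat.dvd_of_mem_primeFactors hl)
  have e1 : ∏ l ∈ QQ n S T \ ex d, Ls d n S T l =
      (∏ l ∈ n.primeFactors, (Pn n l ^ T.factorization l * chp l T)) *
        ∏ l ∈ QQ n S T \ ex d, Ff n S T l := by
    rw [Finset.prod_congr rfl fun l (hl : l ∈ QQ n S T \ ex d) => Ls_Q' hn h8 hS hT hST hl,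
      Finset.prod_mul_distrib, Finset.prod_ite_mem, Finset.inter_eq_right.2 hPsub]
  rw [← Finset.prod_sdiff hexs, hE, e1, ← prod_Ff hS hT, fac_D2 hS hTo]
  by_cases hodd : Odd (S.factorization 2)
  · rw [if_pos hodd, if_pos (show Odd (S.factorization 2 + 2) from by
      obtain ⟨k, hk⟩ := hodd; exact ⟨k + 1, by omega⟩)]
    by_cases hF : ∀ l ∈ QQ n S T \ ex d, Ff n S T l ≠ 0
    · rw [sign_eq hn h8 hS hT hTo hST (fun h => (h7 h).2.1) hF]
      ring
    · push Not at hF
      obtain ⟨l, hl, hl0⟩ := hF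
      rw [Finset.prod_eq_zero hl hl0]
      ring
  · rw [if_neg hodd, if_neg (show ¬ Odd (S.factorization 2 + 2) from fun h => hodd (by
      obtain ⟨k, hk⟩ := h
      exact ⟨k - 1, by omega⟩))]
    ring

/-- C2, level two -/
theorem t_C21 : S_C21 := by
  classical
  intro n hn h8 T hTo hlt
  rw [main hn h8 (Or.inl rfl) (by norm_num) hTo hlt]
  unfold loc1
  congr 1
  refine if_congr Iff.rfl ?_ rfl
  rw [if_neg (by norm_num), one_mul]
  refine Finset.prod_congr ?_ fun _ _ => rfl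
  ext l
  rw [Finset.mem_sdiff, mem_ex, Finset.mem_erase]
  constructor
  · rintro ⟨h1, h2⟩
    exact ⟨fun h => h2 (Or.inl h), h1⟩
  · rintro ⟨h1, h2⟩
    refine ⟨h2, ?_⟩
    rintro (h | ⟨_, h⟩)
    · exact h1 h
    · norm_num at h

/-- C2, level fourteen -/
theorem t_C27 : S_C27 := by
  classical
  intro n hn h8 h7n h7j T hTo h7T hlt
  have hP7 : Pn n 7 = 1 := by
    have h1 := Pn_nd (n := n) (m := 7) hn (by
      intro q hq hd
      have hq7 := (Nat.prime_dvd_prime_iff_eq (Nat.prime_of_mem_primeFactors hq)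
        (by norm_num : Nat.Prime 7)).1 hd
      rw [hq7] at hq
      exact h7n (Nat.dvd_of_mem_primeFactors hq))
    rw [h1]
    exact_mod_cast h7j
  rw [main hn h8 (Or.inr rfl) (fun _ => ⟨h7n, hP7, h7T⟩) hTo hlt]
  unfold loc
  congr 1
  refine if_congr Iff.rfl ?_ rfl
  rw [if_pos rfl]
  congr 1
  refine Finset.prod_congr ?_ fun _ _ => rfl
  ext l
  rw [Finset.mem_sdiff, mem_ex, Finset.mem_erase, Finset.mem_erase]
  constructor
  · rintro ⟨h1, h2⟩
    exact ⟨fun h => h2 (Or.inr ⟨h, rfl⟩), fun h => h2 (Or.inl h), h1⟩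
  · rintro ⟨h1, h2, h3⟩
    refine ⟨h3, ?_⟩
    rintro (h | ⟨h, _⟩)
    · exact h2 h
    · exact h1 h

end Pool.Agent.Y275.N
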